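import Pool.Agent.Helper24.AB.AN.Goals

/-! # Project AB, module AN, packet STEP: the difference quotient of a solution is a solution. -/

open MeasureTheory Set Filter Topology
open scoped ContDiff

noncomputable section

namespace Pool.Agent.Helper49.AB.STEP

open Pool.Agent.Helper24.AB

/-! ## The strip and the translation -/

lemma strip_open (a : ℝ) : IsOpen (strip a) :=
  isOpen_lt (continuous_abs.comp Complex.continuous_re) continuous_const

lemma strip_meas (a : ℝ) : MeasurableSet (strip a) := (strip_open a).measurableSet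

/-- translation by `ih` -/
def tr (h : ℝ) (w : ℂ) : ℂ := w + h * Complex.I

lemma tr_re (h : ℝ) (w : ℂ) : (tr h w).re = w.re := by simp [tr]

lemma tr_im (h : ℝ) (w : ℂ) : (tr h w).im = w.im + h := by simp [tr]

lemma tr_mem (a h : ℝ) (w : ℂ) : tr h w ∈ strip a ↔ w ∈ strip a := by
  simp only [strip, Set.mem_ofPred_eq, tr_re]

lemma mp (a h : ℝ) : MeasurePreserving (tr h) (muS a) (muS a) := by
  have h1 : MeasurePreserving (tr h) (volume : Measure ℂ) volume :=
    measurePreserving_add_right volume _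
  have h2 := h1.restrict_preimage (strip_meas a)
  have h3 : tr h ⁻¹' strip a = strip a := by
    ext w
    exact tr_mem a h w
  rwa [h3] at h2

lemma emb (h : ℝ) : MeasurableEmbedding (tr h) :=
  (MeasurableEquiv.addRight ((h : ℂ) * Complex.I)).measurableEmbedding

lemma int_tr (a h : ℝ) (f : ℂ → ℂ) :
    ∫ w in strip a, f (tr h w) = ∫ w in strip a, f w :=
  (mp a h).integral_comp (emb h) f

lemma memLp_tr {a : ℝ} (h : ℝ) {f : ℂ → ℂ} (hf : MemLp f 2 (muS a)) :
    MemLp (fun w => f (tr h w)) 2 (muS a) := hf.comp_measurePreserving (mp a h)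

lemma eLp_tr {a : ℝ} (h : ℝ) {f : ℂ → ℂ} (hf : AEStronglyMeasurable f (muS a)) :
    eLpNorm (fun w => f (tr h w)) 2 (muS a) = eLpNorm f 2 (muS a) :=
  eLpNorm_comp_measurePreserving hf (mp a h)

lemma ae_strip {a : ℝ} {p : ℂ → Prop} (h : ∀ w ∈ strip a, p w) : ∀ᵐ w ∂(muS a), p w :=
  ae_restrict_of_forall_mem (strip_meas a) h

/-! ## Test functions -/

lemma test_tr {a : ℝ} (h : ℝ) {φ : ℂ → ℂ} (hφ : IsTest a φ) : IsTest a (fun w => φ (tr h w)) := by
  obtain ⟨h1, h2, h3⟩ := hφ
  have hc : (fun w => φ (tr h w)) = φ ∘ (Homeomorph.addRight ((h : ℂ) * Complex.I)) := rfl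
  refine ⟨?_, ?_, ?_⟩
  · exact h1.comp (contDiff_id.add contDiff_const)
  · rw [hc]
    exact h2.comp_homeomorph _
  · rw [hc, tsupport_comp_eq_preimage]
    intro w hw
    exact (tr_mem a h w).1 (h3 hw)

lemma dz_tr (h : ℝ) (f : ℂ → ℂ) (w : ℂ) : dz (fun w => f (tr h w)) w = dz f (tr h w) := by
  simp only [dz, dS, dT, tr, fderiv_comp_add_right]

lemma dz_mul {m φ : ℂ → ℂ} {w : ℂ} (hm : DifferentiableAt ℝ m w) (hφ : DifferentiableAt ℝ φ w) :
    dz (fun w => m w * φ w) w = m w * dz φ w + dz m w * φ w := by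
  simp only [dz, dS, dT, fderiv_fun_mul hm hφ]
  simp only [add_apply, smul_apply, smul_eq_mul]
  ring

lemma test_mul {a : ℝ} {m φ : ℂ → ℂ} (hm : ContDiff ℝ ∞ m) (hφ : IsTest a φ) :
    IsTest a (fun w => m w * φ w) := by
  obtain ⟨h1, h2, h3⟩ := hφ
  exact ⟨hm.mul h1, h2.mul_left, tsupport_mul_subset_right.trans h3⟩

lemma memLp_mul_test {a : ℝ} {g φ : ℂ → ℂ} (hg : ContinuousOn g (strip a)) (hφ : Continuous φ)
    (hc : HasCompactSupport φ) (hs : tsupport φ ⊆ strip a) :
    MemLp (fun w => g w * φ w) 2 (muS a) := by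
  have h1 : Continuous (fun w => g w * φ w) := by
    apply continuous_of_tsupport
    intro w hw
    have hw' : w ∈ strip a := hs (tsupport_mul_subset_right hw)
    exact (hg.continuousAt ((strip_open a).mem_nhds hw')).mul hφ.continuousAt
  exact h1.memLp_of_hasCompactSupport hc.mul_left

lemma dz_cont {φ : ℂ → ℂ} (h1 : ContDiff ℝ ∞ φ) : Continuous (dz φ) := by
  have := h1.continuous_fderiv (by simp)
  unfold dz dS dT
  exact ((this.clm_apply continuous_const).sub
    (continuous_const.mul (this.clm_apply continuous_const))).div_const _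

lemma dz_supp {φ : ℂ → ℂ} (h2 : HasCompactSupport φ) : HasCompactSupport (dz φ) := by
  refine h2.mono' ?_
  intro w hw
  by_contra hcon
  apply hw
  have h3 : fderiv ℝ φ w = 0 := by
    by_contra h4
    exact hcon (tsupport_fderiv_subset ℝ (subset_tsupport _ (by simpa using h4)))
  simp [dz, dS, dT, h3]

lemma dzPhi_cont {a : ℝ} {Φ : ℂ → ℝ} (hΦ : ContDiffOn ℝ ∞ Φ (strip a)) :
    ContinuousOn (dz (fun w => (Φ w : ℂ))) (strip a) := by
  have h1 : ContDiffOn ℝ ∞ (fun w => (Φ w : ℂ)) (strip a) :=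
    Complex.ofRealCLM.contDiff.comp_contDiffOn hΦ
  have h2 := h1.continuousOn_fderiv_of_isOpen (strip_open a) (by simp)
  unfold dz dS dT
  exact ((h2.clm_apply continuousOn_const).sub
    (continuousOn_const.mul (h2.clm_apply continuousOn_const))).div_const _

lemma ch_eq (Φ : ℂ → ℝ) (h : ℝ) (w : ℂ) : ch Φ h w =
    (dz (fun w => (Φ w : ℂ)) (tr h w) - dz (fun w => (Φ w : ℂ)) w) / h := rfl

lemma ch_mul (Φ : ℂ → ℝ) {h : ℝ} (hh : h ≠ 0) (w : ℂ) :
    dz (fun w => (Φ w : ℂ)) (tr h w) = dz (fun w => (Φ w : ℂ)) w + h * ch Φ h w := by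
  rw [ch_eq]
  have : (h : ℂ) ≠ 0 := by exact_mod_cast hh
  field_simp
  ring

lemma ch_cont {a : ℝ} {Φ : ℂ → ℝ} (hΦ : ContDiffOn ℝ ∞ Φ (strip a)) (h : ℝ) :
    ContinuousOn (ch Φ h) (strip a) := by
  have h1 := dzPhi_cont hΦ
  have h2 : ContinuousOn (fun w => dz (fun w => (Φ w : ℂ)) (tr h w)) (strip a) := by
    refine h1.comp ?_ ?_
    · unfold tr
      fun_prop
    · intro w hw
      exact (tr_mem a h w).2 hw
  have h3 : ch Φ h = fun w =>
    (dz (fun w => (Φ w : ℂ)) (tr h w) - dz (fun w => (Φ w : ℂ)) w) / h := by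
    funext w
    exact ch_eq Φ h w
  rw [h3]
  exact (h2.sub h1).div_const _

lemma test_L2 {a : ℝ} {φ : ℂ → ℂ} (hφ : IsTest a φ) : MemLp φ 2 (muS a) :=
  hφ.1.continuous.memLp_of_hasCompactSupport hφ.2.1

lemma Dop_L2 {a : ℝ} {Φ : ℂ → ℝ} (hΦ : ContDiffOn ℝ ∞ Φ (strip a)) {φ : ℂ → ℂ}
    (hφ : IsTest a φ) : MemLp (Dop Φ φ) 2 (muS a) := by
  have h1 : MemLp (dz φ) 2 (muS a) :=
    (dz_cont hφ.1).memLp_of_hasCompactSupport (dz_supp hφ.2.1)
  have h2 := memLp_mul_test (dzPhi_cont hΦ) hφ.1.continuous hφ.2.1 hφ.2.2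
  exact h1.neg.add h2

/-- `(D(τψ))(w) = (Dψ)(w+ih) - h c(w) ψ(w+ih)` -/
lemma Dop_tr (Φ : ℂ → ℝ) {h : ℝ} (hh : h ≠ 0) (ψ : ℂ → ℂ) (w : ℂ) :
    Dop Φ (fun w => ψ (tr h w)) w = Dop Φ ψ (tr h w) - h * ch Φ h w * ψ (tr h w) := by
  unfold Dop
  rw [dz_tr, ch_mul Φ hh w]
  ring

/-! ## The pairing -/

/-- the pairing on the strip -/
def Ip (a : ℝ) (f g : ℂ → ℂ) : ℂ := ∫ w in strip a, f w * (starRingEnd ℂ) (g w)

lemma Ip_integrable {a : ℝ} {f g : ℂ → ℂ} (hf : MemLp f 2 (muS a)) (hg : MemLp g 2 (muS a)) :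
    Integrable (fun w => f w * (starRingEnd ℂ) (g w)) (muS a) := by
  have h1 : MemLp (star g) 2 (muS a) := hg.star
  exact hf.integrable_mul h1

lemma Ip_left {a : ℝ} {f f' g : ℂ → ℂ} (c c' : ℂ) (hf : MemLp f 2 (muS a))
    (hf' : MemLp f' 2 (muS a)) (hg : MemLp g 2 (muS a)) :
    Ip a (fun w => c * f w + c' * f' w) g = c * Ip a f g + c' * Ip a f' g := by
  unfold Ip
  rw [← integral_const_mul, ← integral_const_mul, ← integral_add]
  · apply integral_congr_ae
    filter_upwards with w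
    ring
  · exact (Ip_integrable hf hg).const_mul c
  · exact (Ip_integrable hf' hg).const_mul c'

lemma Ip_right {a : ℝ} {f g g' : ℂ → ℂ} (c : ℂ) (hf : MemLp f 2 (muS a))
    (hg : MemLp g 2 (muS a)) (hg' : MemLp g' 2 (muS a)) :
    Ip a f (fun w => g w + c * g' w) = Ip a f g + (starRingEnd ℂ) c * Ip a f g' := by
  unfold Ip
  rw [← integral_const_mul, ← integral_add]
  · apply integral_congr_ae
    filter_upwards with w
    simp only [map_add, map_mul]
    ring
  · exact Ip_integrable hf hg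
  · exact (Ip_integrable hf hg').const_mul _

/-! ## Memberships -/

lemma memLp_of_W {a : ℝ} {W : ℝ → ℝ} {N : ℕ} (hW : Continuous W) (h1 : ∀ t, 1 ≤ W t)
    {X : ℂ → ℂ} (hX : MemLp (fun w => ((W w.im) ^ N : ℝ) • X w) 2 (muS a)) :
    MemLp X 2 (muS a) := by
  have hc : Continuous (fun w : ℂ => ((W w.im) ^ N)⁻¹) := by
    refine Continuous.inv₀ ((hW.comp Complex.continuous_im).pow N) ?_
    intro w
    have := h1 w.im
    positivity
  have hm : AEStronglyMeasurable X (muS a) := by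
    have h2 := hc.aestronglyMeasurable (μ := muS a) |>.smul hX.1
    refine h2.congr ?_
    filter_upwards with w
    have h3 : (W w.im) ^ N ≠ 0 := by
      have := h1 w.im
      positivity
    simp only [Pi.smul_apply', smul_smul]
    rw [inv_mul_cancel₀ h3, one_smul]
  refine hX.of_le hm ?_
  filter_upwards with w
  rw [norm_smul]
  have h3 : 1 ≤ (W w.im) ^ N := one_le_pow₀ (h1 w.im)
  have h4 : ‖(W w.im) ^ N‖ = (W w.im) ^ N := by
    rw [Real.norm_eq_abs, abs_of_nonneg (by linarith)]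
  rw [h4]
  nlinarith [norm_nonneg (X w)]

lemma memLp_ch {a h C : ℝ} {N : ℕ} {Φ : ℂ → ℝ} {W : ℝ → ℝ} {z : ℂ → ℂ}
    (hΦ : ContDiffOn ℝ ∞ Φ (strip a)) (hW : Continuous W) (h1 : ∀ t, 1 ≤ W t)
    (hs : ∀ t s, W (t + s) ≤ Real.exp |s| * W t)
    (hC : ∀ w ∈ strip a, ‖ch Φ h w‖ ≤ C * W w.im ^ N)
    (hz : MemLp (fun w => ((W w.im) ^ N : ℝ) • z w) 2 (muS a)) :
    MemLp (fun w => ch Φ h w * z (tr h w)) 2 (muS a) := by
  have hz1 := memLp_tr h hz
  have hz2 := memLp_tr h (memLp_of_W hW h1 hz)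
  refine hz1.of_le_mul (c := |C| * (Real.exp |h|) ^ N) ?_ ?_
  · exact ((ch_cont hΦ h).aestronglyMeasurable (strip_meas a)).mul hz2.1
  · apply ae_strip
    intro w hw
    rw [norm_mul, norm_smul, tr_im]
    have h4 : ‖(W (w.im + h)) ^ N‖ = (W (w.im + h)) ^ N := by
      have := h1 (w.im + h)
      rw [Real.norm_eq_abs, abs_of_nonneg (by positivity)]
    rw [h4]
    have h5 : W w.im ≤ Real.exp |h| * W (w.im + h) := by
      have := hs (w.im + h) (-h)
      rwa [abs_neg, add_neg_cancel_right] at this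
    have h6 : W w.im ^ N ≤ (Real.exp |h|) ^ N * W (w.im + h) ^ N := by
      rw [← mul_pow]
      exact pow_le_pow_left₀ (by linarith [h1 w.im]) h5 N
    have h7 : ‖ch Φ h w‖ ≤ |C| * ((Real.exp |h|) ^ N * W (w.im + h) ^ N) := by
      refine (hC w hw).trans ?_
      have h8 : C * W w.im ^ N ≤ |C| * W w.im ^ N :=
        mul_le_mul_of_nonneg_right (le_abs_self C) (by have := h1 w.im; positivity)
      exact h8.trans (mul_le_mul_of_nonneg_left h6 (abs_nonneg C))
    calc ‖ch Φ h w‖ * ‖z (tr h w)‖ ≤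
        |C| * ((Real.exp |h|) ^ N * W (w.im + h) ^ N) * ‖z (tr h w)‖ :=
          mul_le_mul_of_nonneg_right h7 (norm_nonneg _)
      _ = _ := by ring


/-! ## The equation -/

lemma eqn_step {a h : ℝ} (hh : 0 < h) {Φ : ℂ → ℝ} (hΦ : ContDiffOn ℝ ∞ Φ (strip a))
    {y Xa Xb cz : ℂ → ℂ} (hy : MemLp y 2 (muS a)) (hXa : MemLp Xa 2 (muS a))
    (hXb : MemLp Xb 2 (muS a)) (hcz : MemLp cz 2 (muS a)) (hE : Eqn a Φ y Xa Xb) :
    Eqn a Φ (fun w => Dh h y w - cz w)
      (fun w => Dh h Xa w + (starRingEnd ℂ) (ch Φ h w) * tauh h (fun w => Xb w - y w) w)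
      (fun w => Dh h Xb w - cz w) := by
  intro φ hφ
  have hh0 : (h : ℂ) ≠ 0 := by exact_mod_cast hh.ne'
  -- the test function
  have hψ : IsTest a (fun w => φ (tr (-h) w)) := test_tr (-h) hφ
  have htr : ∀ w, tr (-h) (tr h w) = w := by
    intro w
    simp [tr]
  set ψ : ℂ → ℂ := fun w => φ (tr (-h) w) with hψd
  have hD : ∀ w, Dop Φ ψ (tr h w) = Dop Φ φ w + h * (ch Φ h w * φ w) := by
    intro w
    have h1 := Dop_tr Φ hh.ne' ψ w
    have h2 : (fun w => ψ (tr h w)) = φ := by
      funext w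
      simp only [hψd, htr]
    have h3 : ψ (tr h w) = φ w := by
      simp only [hψd, htr]
    rw [h2, h3] at h1
    rw [h1]
    ring
  have hφ2 : MemLp φ 2 (muS a) := test_L2 hφ
  have hD2 : MemLp (Dop Φ φ) 2 (muS a) := Dop_L2 hΦ hφ
  have hc2 : MemLp (fun w => ch Φ h w * φ w) 2 (muS a) :=
    memLp_mul_test (ch_cont hΦ h) hφ.1.continuous hφ.2.1 hφ.2.2
  -- translated equation
  have key : Ip a (fun w => y (tr h w)) (fun w => Dop Φ φ w + h * (ch Φ h w * φ w)) =
      Ip a (fun w => Xa (tr h w)) φ +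
      Ip a (fun w => Xb (tr h w)) (fun w => Dop Φ φ w + h * (ch Φ h w * φ w)) := by
    have h1 := hE ψ hψ
    rw [← int_tr a h, ← int_tr a h (fun w => Xa w * (starRingEnd ℂ) (ψ w)),
      ← int_tr a h (fun w => Xb w * (starRingEnd ℂ) (Dop Φ ψ w))] at h1
    simp only [hD] at h1
    have h3 : ∀ w, ψ (tr h w) = φ w := by
      intro w
      simp only [hψd, htr]
    simp only [h3] at h1
    exact h1
  have hyt := memLp_tr h hy
  have hXat := memLp_tr h hXa
  have hXbt := memLp_tr h hXb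
  rw [Ip_right _ hyt hD2 hc2, Ip_right _ hXbt hD2 hc2, Complex.conj_ofReal] at key
  have orig : Ip a y (Dop Φ φ) = Ip a Xa φ + Ip a Xb (Dop Φ φ) := hE φ hφ
  -- left-hand side
  have hL : ∀ (X : ℂ → ℂ), MemLp X 2 (muS a) →
      Ip a (fun w => Dh h X w - cz w) (Dop Φ φ) =
        (Ip a (fun w => X (tr h w)) (Dop Φ φ) - Ip a X (Dop Φ φ)) / h - Ip a cz (Dop Φ φ) := by
    intro X hX
    have hXt := memLp_tr h hX
    have e1 : (fun w => Dh h X w - cz w) = fun w =>
        1 * ((1 / h : ℂ) * X (tr h w) + (-(1 / h) : ℂ) * X w) + (-1) * cz w := by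
      funext w
      simp only [Dh, tr]
      field_simp
      ring
    have e2 : MemLp (fun w => (1 / h : ℂ) * X (tr h w) + (-(1 / h) : ℂ) * X w) 2 (muS a) :=
      (hXt.const_mul _).add (hX.const_mul _)
    rw [e1, Ip_left 1 (-1) e2 hcz hD2, Ip_left _ _ hXt hX hD2]
    field_simp
    ring
  have hA : Ip a (fun w => Dh h Xa w +
      (starRingEnd ℂ) (ch Φ h w) * tauh h (fun w => Xb w - y w) w) φ =
      (Ip a (fun w => Xa (tr h w)) φ - Ip a Xa φ) / h +
        (Ip a (fun w => Xb (tr h w)) (fun w => ch Φ h w * φ w) -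
          Ip a (fun w => y (tr h w)) (fun w => ch Φ h w * φ w)) := by
    have e1 : Ip a (fun w => Dh h Xa w +
        (starRingEnd ℂ) (ch Φ h w) * tauh h (fun w => Xb w - y w) w) φ =
        Ip a (fun w => (1 / h : ℂ) * Xa (tr h w) + (-(1 / h) : ℂ) * Xa w) φ +
        Ip a (fun w => 1 * Xb (tr h w) + (-1) * y (tr h w)) (fun w => ch Φ h w * φ w) := by
      unfold Ip
      rw [← integral_add]
      · apply integral_congr_ae
        filter_upwards with w
        simp only [Dh, tauh, tr, map_mul]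
        field_simp
        ring
      · exact Ip_integrable ((hXat.const_mul _).add (hXa.const_mul _)) hφ2
      · exact Ip_integrable ((hXbt.const_mul _).add (hyt.const_mul _)) hc2
    rw [e1, Ip_left _ _ hXat hXa hφ2, Ip_left _ _ hXbt hyt hc2]
    field_simp
    ring
  have goal : Ip a (fun w => Dh h y w - cz w) (Dop Φ φ) =
      Ip a (fun w => Dh h Xa w +
      (starRingEnd ℂ) (ch Φ h w) * tauh h (fun w => Xb w - y w) w) φ +
      Ip a (fun w => Dh h Xb w - cz w) (Dop Φ φ) := by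
    rw [hL y hy, hL Xb hXb, hA]
    have key2 : Ip a (fun w => y (tr h w)) (Dop Φ φ) =
      Ip a (fun w => Xa (tr h w)) φ +
      (Ip a (fun w => Xb (tr h w)) (Dop Φ φ) +
        h * Ip a (fun w => Xb (tr h w)) (fun w => ch Φ h w * φ w)) -
        h * Ip a (fun w => y (tr h w)) (fun w => ch Φ h w * φ w) := by
      rw [← key]
      ring
    rw [key2, orig]
    field_simp
    ring
  exact goal

/-! ## The domain -/

/-- dominated convergence in `L²` -/
lemma dct_L2 {a B : ℝ} {f : ℂ → ℂ} (hf : MemLp f 2 (muS a)) (k : ℕ → ℂ → ℂ)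
    (hk : ∀ n, Continuous (k n)) (hB : ∀ n w, ‖k n w‖ ≤ B)
    (h0 : ∀ w, Tendsto (fun n => k n w) atTop (𝓝 0)) :
    Tendsto (fun n => eLpNorm (fun w => k n w * f w) 2 (muS a)) atTop (𝓝 0) := by
  have hB0 : 0 ≤ B := (norm_nonneg _).trans (hB 0 0)
  have h2 : (2 : ENNReal).toReal = 2 := by simp
  have key : Tendsto (fun n => ∫⁻ w, ‖k n w * f w‖ₑ ^ (2 : ℝ) ∂(muS a)) atTop (𝓝 0) := by
    have h3 : (0 : ENNReal) = ∫⁻ w, 0 ∂(muS a) := by simp
    rw [h3]
    refine tendsto_lintegral_of_dominated_convergence'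
      (fun w => (ENNReal.ofReal B * ‖f w‖ₑ) ^ (2 : ℝ)) ?_ ?_ ?_ ?_
    · intro n
      exact (((hk n).aestronglyMeasurable.mul hf.1).enorm).pow_const _
    · intro n
      filter_upwards with w
      apply ENNReal.rpow_le_rpow _ (by norm_num)
      rw [enorm_mul]
      gcongr
      rw [← ofReal_norm]
      exact ENNReal.ofReal_le_ofReal (hB n w)
    · have h4 : ∫⁻ w, (ENNReal.ofReal B * ‖f w‖ₑ) ^ (2 : ℝ) ∂(muS a) =
          (ENNReal.ofReal B) ^ (2 : ℝ) * ∫⁻ w, ‖f w‖ₑ ^ (2 : ℝ) ∂(muS a) := by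
        rw [← lintegral_const_mul']
        · congr 1
          funext w
          rw [ENNReal.mul_rpow_of_nonneg _ _ (by norm_num)]
        · exact (ENNReal.rpow_lt_top_of_nonneg (by norm_num) ENNReal.ofReal_ne_top).ne
      rw [h4]
      have h5 := hf.2
      rw [eLpNorm_eq_lintegral_rpow_enorm_toReal (by norm_num) (by norm_num), h2] at h5
      have h6 : ∫⁻ w, ‖f w‖ₑ ^ (2 : ℝ) ∂(muS a) ≠ ⊤ := by
        intro h7
        rw [h7] at h5
        simp at h5
      exact ENNReal.mul_ne_top (ENNReal.rpow_lt_top_of_nonneg (by norm_num)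
        ENNReal.ofReal_ne_top).ne h6
    · filter_upwards with w
      have h8 : Tendsto (fun n => ‖k n w * f w‖ₑ) atTop (𝓝 0) := by
        have h9 : Tendsto (fun n => k n w * f w) atTop (𝓝 0) := by
          simpa using (h0 w).mul_const (f w)
        simpa using h9.enorm
      have h10 := (ENNReal.continuous_rpow_const (y := 2)).tendsto 0 |>.comp h8
      simpa [Function.comp_def] using h10
  have h11 : ∀ n, eLpNorm (fun w => k n w * f w) 2 (muS a) =
      (∫⁻ w, ‖k n w * f w‖ₑ ^ (2 : ℝ) ∂(muS a)) ^ (1 / 2 : ℝ) := by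
    intro n
    rw [eLpNorm_eq_lintegral_rpow_enorm_toReal (by norm_num) (by norm_num), h2]
  simp only [h11]
  have h12 := (ENNReal.continuous_rpow_const (y := (1 / 2 : ℝ))).tendsto 0 |>.comp key
  simpa [Function.comp_def] using h12

/-- closedness applied to the translate of a cut-off of `(z,y)` -/
lemma dom_cut {a h B B' : ℝ} (hh : h ≠ 0) {Φ : ℂ → ℝ} (hΦ : ContDiffOn ℝ ∞ Φ (strip a))
    {z y m : ℂ → ℂ} (hm : ContDiff ℝ ∞ m) (hB : ∀ w, ‖m w‖ ≤ B ∧ ‖dz m w‖ ≤ B)
    (hB' : ∀ w ∈ strip a, ‖ch Φ h w * m (tr h w)‖ ≤ B') (hzy : InDom a Φ z y) :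
    InDom a Φ (fun w => m (tr h w) * z (tr h w))
      (fun w => (m (tr h w) * y (tr h w) - dz m (tr h w) * z (tr h w)) -
        h * (ch Φ h w * m (tr h w) * z (tr h w))) := by
  obtain ⟨hz, hy, φ, hφ, hφz, hφy⟩ := hzy
  have hB0 : 0 ≤ B := (norm_nonneg _).trans (hB 0).1
  have hmc : Continuous m := hm.continuous
  have hdm : Continuous (dz m) := dz_cont hm
  have htrc : Continuous (tr h) := by
    unfold tr
    fun_prop
  have hzt := memLp_tr h hz
  have hyt := memLp_tr h hy
  have hchm : AEStronglyMeasurable (fun w => ch Φ h w * m (tr h w)) (muS a) :=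
    ((ch_cont hΦ h).mul (hmc.comp htrc).continuousOn).aestronglyMeasurable (strip_meas a)
  have memz : MemLp (fun w => m (tr h w) * z (tr h w)) 2 (muS a) := by
    refine hzt.of_le_mul (c := B) ((hmc.comp htrc).aestronglyMeasurable.mul hzt.1) ?_
    filter_upwards with w
    rw [norm_mul]
    exact mul_le_mul_of_nonneg_right (hB _).1 (norm_nonneg _)
  have memy1 : MemLp (fun w => m (tr h w) * y (tr h w)) 2 (muS a) := by
    refine hyt.of_le_mul (c := B) ((hmc.comp htrc).aestronglyMeasurable.mul hyt.1) ?_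
    filter_upwards with w
    rw [norm_mul]
    exact mul_le_mul_of_nonneg_right (hB _).1 (norm_nonneg _)
  have memy2 : MemLp (fun w => dz m (tr h w) * z (tr h w)) 2 (muS a) := by
    refine hzt.of_le_mul (c := B) ((hdm.comp htrc).aestronglyMeasurable.mul hzt.1) ?_
    filter_upwards with w
    rw [norm_mul]
    exact mul_le_mul_of_nonneg_right (hB _).2 (norm_nonneg _)
  have memy3 : MemLp (fun w => ch Φ h w * m (tr h w) * z (tr h w)) 2 (muS a) := by
    refine hzt.of_le_mul (c := B') (hchm.mul hzt.1) ?_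
    apply ae_strip
    intro w hw
    rw [norm_mul]
    exact mul_le_mul_of_nonneg_right (hB' w hw) (norm_nonneg _)
  refine ⟨memz, (memy1.sub memy2).sub (memy3.const_mul _), fun n w => m (tr h w) * φ n (tr h w),
    ?_, ?_, ?_⟩
  · intro n
    exact test_tr h (test_mul hm (hφ n))
  · -- convergence of the functions
    have h1 : ∀ n, eLpNorm (fun w => m (tr h w) * φ n (tr h w) - m (tr h w) * z (tr h w)) 2 (muS a)
        ≤ ENNReal.ofReal B * eLpNorm (fun w => φ n w - z w) 2 (muS a) := by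
      intro n
      have hd : AEStronglyMeasurable (fun w => φ n w - z w) (muS a) :=
        (hφ n).1.continuous.aestronglyMeasurable.sub hz.1
      rw [← eLp_tr h hd]
      apply eLpNorm_le_mul_eLpNorm_of_ae_le_mul
      filter_upwards with w
      rw [← mul_sub, norm_mul]
      exact mul_le_mul_of_nonneg_right (hB _).1 (norm_nonneg _)
    have h2 : Tendsto (fun n => ENNReal.ofReal B * eLpNorm (fun w => φ n w - z w) 2 (muS a))
        atTop (𝓝 0) := by
      have := ENNReal.Tendsto.const_mul (a := ENNReal.ofReal B) hφz (Or.inr ENNReal.ofReal_ne_top)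
      simpa using this
    exact tendsto_of_tendsto_of_tendsto_of_le_of_le tendsto_const_nhds h2 (fun n => zero_le)
      (fun n => h1 n)
  · -- convergence of the images
    have h1 : ∀ n, eLpNorm (fun w => Dop Φ (fun w => m (tr h w) * φ n (tr h w)) w -
        ((m (tr h w) * y (tr h w) - dz m (tr h w) * z (tr h w)) -
        h * (ch Φ h w * m (tr h w) * z (tr h w)))) 2 (muS a)
        ≤ ENNReal.ofReal B * eLpNorm (fun w => Dop Φ (φ n) w - y w) 2 (muS a) +
          ENNReal.ofReal (B + |h| * B') * eLpNorm (fun w => φ n w - z w) 2 (muS a) := by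
      intro n
      have hd : AEStronglyMeasurable (fun w => φ n w - z w) (muS a) :=
        (hφ n).1.continuous.aestronglyMeasurable.sub hz.1
      have hd' : AEStronglyMeasurable (fun w => Dop Φ (φ n) w - y w) (muS a) :=
        (Dop_L2 hΦ (hφ n)).1.sub hy.1
      have e1 : ∀ w, Dop Φ (fun w => m (tr h w) * φ n (tr h w)) w -
          ((m (tr h w) * y (tr h w) - dz m (tr h w) * z (tr h w)) -
          h * (ch Φ h w * m (tr h w) * z (tr h w))) =
          m (tr h w) * (Dop Φ (φ n) (tr h w) - y (tr h w)) +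
          (-dz m (tr h w) - h * (ch Φ h w * m (tr h w))) * (φ n (tr h w) - z (tr h w)) := by
        intro w
        have e2 := Dop_tr Φ hh (fun w => m w * φ n w) w
        rw [e2]
        have e3 : Dop Φ (fun w => m w * φ n w) (tr h w) =
            m (tr h w) * Dop Φ (φ n) (tr h w) - dz m (tr h w) * φ n (tr h w) := by
          unfold Dop
          rw [dz_mul (hm.differentiable (by simp) _) ((hφ n).1.differentiable (by simp) _)]
          ring
        rw [e3]
        ring
      simp only [e1]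
      refine (eLpNorm_add_le ?_ ?_ (by norm_num)).trans ?_
      · exact (hmc.comp htrc).aestronglyMeasurable.mul
          (hd'.comp_quasiMeasurePreserving (mp a h).quasiMeasurePreserving)
      · exact (((hdm.comp htrc).aestronglyMeasurable.neg).sub (hchm.const_mul _)).mul
          (hd.comp_quasiMeasurePreserving (mp a h).quasiMeasurePreserving)
      · apply add_le_add
        · rw [← eLp_tr h hd']
          apply eLpNorm_le_mul_eLpNorm_of_ae_le_mul
          filter_upwards with w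
          rw [norm_mul]
          exact mul_le_mul_of_nonneg_right (hB _).1 (norm_nonneg _)
        · rw [← eLp_tr h hd]
          apply eLpNorm_le_mul_eLpNorm_of_ae_le_mul
          apply ae_strip
          intro w hw
          rw [norm_mul]
          refine mul_le_mul_of_nonneg_right ?_ (norm_nonneg _)
          calc ‖-dz m (tr h w) - h * (ch Φ h w * m (tr h w))‖ ≤
              ‖-dz m (tr h w)‖ + ‖(h : ℂ) * (ch Φ h w * m (tr h w))‖ := norm_sub_le _ _
            _ = ‖dz m (tr h w)‖ + |h| * ‖ch Φ h w * m (tr h w)‖ := by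
              rw [norm_neg, norm_mul, Complex.norm_real, Real.norm_eq_abs]
            _ ≤ B + |h| * B' :=
              add_le_add (hB _).2 (mul_le_mul_of_nonneg_left (hB' w hw) (abs_nonneg _))
    have h2 : Tendsto (fun n => ENNReal.ofReal B *
        eLpNorm (fun w => Dop Φ (φ n) w - y w) 2 (muS a) +
          ENNReal.ofReal (B + |h| * B') * eLpNorm (fun w => φ n w - z w) 2 (muS a))
        atTop (𝓝 0) := by
      have t1 := ENNReal.Tendsto.const_mul (a := ENNReal.ofReal B) hφy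
        (Or.inr ENNReal.ofReal_ne_top)
      have t2 := ENNReal.Tendsto.const_mul (a := ENNReal.ofReal (B + |h| * B')) hφz
        (Or.inr ENNReal.ofReal_ne_top)
      simpa using t1.add t2
    exact tendsto_of_tendsto_of_tendsto_of_le_of_le tendsto_const_nhds h2 (fun n => zero_le)
      (fun n => h1 n)

/-! ## Cut-offs -/

/-- the one-dimensional bump -/
def bmp : ContDiffBump (0 : ℝ) := ⟨1, 2, by norm_num, by norm_num⟩

/-- complex valued -/
def bet (t : ℝ) : ℂ := ((bmp t : ℝ) : ℂ)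

lemma bet_smooth : ContDiff ℝ ∞ bet := Complex.ofRealCLM.contDiff.comp bmp.contDiff

lemma bet_norm (t : ℝ) : ‖bet t‖ ≤ 1 := by
  unfold bet
  rw [Complex.norm_real, Real.norm_eq_abs, abs_of_nonneg bmp.nonneg]
  exact bmp.le_one

lemma bet_one {t : ℝ} (ht : |t| ≤ 1) : bet t = 1 := by
  unfold bet
  rw [bmp.one_of_mem_closedBall]
  · simp
  · simpa [bmp] using ht

lemma bet_zero {t : ℝ} (ht : 2 ≤ |t|) : bet t = 0 := by
  unfold bet
  rw [bmp.zero_of_le_dist]
  · simp
  · simpa [bmp] using ht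

lemma bet_deriv : ∃ M : ℝ, 0 ≤ M ∧ ∀ t, ‖deriv bet t‖ ≤ M := by
  have h1 : Continuous (deriv bet) := bet_smooth.continuous_deriv (by simp)
  obtain ⟨M, hM⟩ := (isCompact_Icc (a := (-3 : ℝ)) (b := 3)).exists_bound_of_continuousOn
    h1.continuousOn
  refine ⟨max M 0, le_max_right _ _, ?_⟩
  intro t
  by_cases ht : t ∈ Icc (-3 : ℝ) 3
  · exact (hM t ht).trans (le_max_left _ _)
  · have h2 : deriv bet t = 0 := by
      have h3 : bet =ᶠ[𝓝 t] fun _ => (0 : ℂ) := by
        have h4 : {s : ℝ | 2 < |s|} ∈ 𝓝 t := by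
          refine (isOpen_lt continuous_const continuous_abs).mem_nhds ?_
          rw [Set.mem_ofPred_eq]
          by_contra hcon
          push Not at hcon
          exact ht ⟨by linarith [neg_abs_le t], by linarith [le_abs_self t]⟩
        filter_upwards [h4] with s hs
        exact bet_zero (le_of_lt hs)
      rw [h3.deriv_eq]
      simp
    rw [h2]
    simp

/-- the cut-off functions on the strip -/
def cut (n : ℕ) (w : ℂ) : ℂ := bet (w.im / (n + 1))

lemma cut_smooth (n : ℕ) : ContDiff ℝ ∞ (cut n) := by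
  unfold cut
  exact bet_smooth.comp (Complex.imCLM.contDiff.div_const _)

lemma cut_dz (n : ℕ) (w : ℂ) :
    dz (cut n) w = -(Complex.I * deriv bet (w.im / (n + 1)) / (n + 1)) / 2 := by
  have h1 : HasFDerivAt (fun w : ℂ => w.im / ((n : ℝ) + 1))
      (((n : ℝ) + 1)⁻¹ • Complex.imCLM) w := by
    have := (Complex.imCLM.hasFDerivAt (x := w)).const_smul (((n : ℝ) + 1)⁻¹)
    refine this.congr_of_eventuallyEq ?_
    filter_upwards with v
    simp [div_eq_inv_mul]
  have h2 : HasDerivAt bet (deriv bet (w.im / ((n : ℝ) + 1))) (w.im / ((n : ℝ) + 1)) :=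
    (bet_smooth.differentiable (by simp) _).hasDerivAt
  have h3 := h2.hasFDerivAt.comp w h1
  have h4 : fderiv ℝ (cut n) w = _ := h3.fderiv
  simp only [dz, dS, dT, h4]
  simp
  ring

/-! ## The statement -/

theorem step (hDOM : S_DOM) : S_STEP := by
  intro a h C N Φ W z y Xa Xb ha hh hh1 hΦ hW hW1 hWs hC hz hy hXb hXa0 hXb0 hD hE
  obtain ⟨dlin, -, dclo, -⟩ := hDOM a Φ ha hΦ
  have hcz : MemLp (fun w => ch Φ h w * z (tr h w)) 2 (muS a) :=
    memLp_ch hΦ hW hW1 hWs hC hz
  have hz2 := hD.memz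
  have hy2 := hD.memy
  have hzt := memLp_tr h hz2
  have hyt := memLp_tr h hy2
  refine ⟨?_, eqn_step hh hΦ hy2 hXa0 hXb0 hcz hE⟩
  obtain ⟨M, hM0, hM⟩ := bet_deriv
  have hh0 : (h : ℂ) ≠ 0 := by exact_mod_cast hh.ne'
  have hn1 : ∀ n : ℕ, (0 : ℝ) < (n : ℝ) + 1 := fun n => by positivity
  -- bounds of the cut-offs
  have hcutB : ∀ n w, ‖cut n w‖ ≤ 1 := fun n w => bet_norm _
  have hcutD : ∀ (n : ℕ) w, ‖dz (cut n) w‖ ≤ M / (n + 1) := by
    intro n w
    rw [cut_dz, norm_div, norm_neg, norm_div, norm_mul, Complex.norm_I, one_mul]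
    have e1 : ‖((n : ℂ) + 1)‖ = (n : ℝ) + 1 := by
      have : ((n : ℂ) + 1) = (((n : ℝ) + 1 : ℝ) : ℂ) := by push_cast; ring
      rw [this, Complex.norm_real, Real.norm_eq_abs, abs_of_pos (hn1 n)]
    rw [e1]
    have e2 : ‖deriv bet (w.im / (n + 1))‖ / ((n : ℝ) + 1) ≤ M / (n + 1) := by
      gcongr
      exact hM _
    have e3 : (0 : ℝ) ≤ M / (n + 1) := by positivity
    have e4 : ‖(2 : ℂ)‖ = 2 := by simp
    rw [e4]
    linarith
  have hcutch : ∀ n : ℕ, ∃ B' : ℝ, ∀ w ∈ strip a, ‖ch Φ h w * cut n (tr h w)‖ ≤ B' := by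
    intro n
    obtain ⟨K, hK⟩ := (isCompact_Icc (a := -(2 * ((n : ℝ) + 1) + 1))
      (b := 2 * ((n : ℝ) + 1) + 1)).exists_bound_of_continuousOn
      (f := fun t => C * W t ^ N) (continuous_const.mul (hW.pow N)).continuousOn
    refine ⟨max K 0, ?_⟩
    intro w hw
    rw [norm_mul]
    by_cases ht : |w.im + h| ≤ 2 * ((n : ℝ) + 1)
    · have h1 : w.im ∈ Icc (-(2 * ((n : ℝ) + 1) + 1)) (2 * ((n : ℝ) + 1) + 1) := by
        rw [abs_le] at ht
        constructor <;> linarith [ht.1, ht.2]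
      have h2 := hK _ h1
      have h3 : ‖ch Φ h w‖ ≤ K := by
        refine (hC w hw).trans ((le_abs_self _).trans ?_)
        simpa [Real.norm_eq_abs] using h2
      calc ‖ch Φ h w‖ * ‖cut n (tr h w)‖ ≤ ‖ch Φ h w‖ * 1 :=
            mul_le_mul_of_nonneg_left (hcutB _ _) (norm_nonneg _)
        _ ≤ K := by linarith
        _ ≤ max K 0 := le_max_left _ _
    · have h4 : cut n (tr h w) = 0 := by
        unfold cut
        rw [tr_im]
        apply bet_zero
        rw [abs_div, abs_of_pos (hn1 n), le_div_iff₀ (hn1 n)]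
        push Not at ht
        exact ht.le
      rw [h4]
      simp
  -- the cut-off pairs
  have hn := fun n : ℕ => dom_cut (B := max 1 (M / (n + 1))) hh.ne' hΦ (cut_smooth n)
    (fun w => ⟨(hcutB n w).trans (le_max_left _ _), (hcutD n w).trans (le_max_right _ _)⟩)
    (hcutch n).choose_spec hD
  -- convergence of the cut-offs
  have hcut0 : ∀ w, Tendsto (fun n : ℕ => cut n (tr h w) - 1) atTop (𝓝 0) := by
    intro w
    have h1 : ∀ᶠ n : ℕ in atTop, cut n (tr h w) - 1 = 0 := by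
      filter_upwards [eventually_ge_atTop (Nat.ceil |(tr h w).im|)] with n hn
      have h2 : |(tr h w).im| ≤ n := (Nat.le_ceil _).trans (by exact_mod_cast hn)
      unfold cut
      rw [bet_one, sub_self]
      rw [abs_div, abs_of_pos (hn1 n), div_le_one (hn1 n)]
      linarith
    exact tendsto_const_nhds.congr' (h1.mono fun n hn => hn.symm)
  have hcutd0 : ∀ w, Tendsto (fun n : ℕ => dz (cut n) (tr h w)) atTop (𝓝 0) := by
    intro w
    rw [tendsto_zero_iff_norm_tendsto_zero]
    have h2 : Tendsto (fun n : ℕ => M / ((n : ℝ) + 1)) atTop (𝓝 0) := by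
      have := tendsto_one_div_add_atTop_nhds_zero_nat (𝕜 := ℝ) |>.const_mul M
      simpa [div_eq_mul_inv] using this
    exact tendsto_of_tendsto_of_tendsto_of_le_of_le tendsto_const_nhds h2
      (fun n => norm_nonneg _) (fun n => hcutD n _)
  have htrc : Continuous (tr h) := by
    unfold tr
    fun_prop
  have hk1 : ∀ n : ℕ, Continuous (fun w => cut n (tr h w) - 1) := fun n =>
    ((cut_smooth n).continuous.comp htrc).sub continuous_const
  have hk2 : ∀ n : ℕ, Continuous (fun w => dz (cut n) (tr h w)) := fun n =>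
    (dz_cont (cut_smooth n)).comp htrc
  have hb1 : ∀ (n : ℕ) w, ‖cut n (tr h w) - 1‖ ≤ 2 := by
    intro n w
    refine (norm_sub_le _ _).trans ?_
    have := hcutB n (tr h w)
    rw [norm_one]
    linarith
  have hb2 : ∀ (n : ℕ) w, ‖dz (cut n) (tr h w)‖ ≤ M := by
    intro n w
    refine (hcutD n _).trans ?_
    rw [div_le_iff₀ (hn1 n)]
    nlinarith [(Nat.cast_nonneg n : (0 : ℝ) ≤ n)]
  have L1 := dct_L2 hzt (fun n w => cut n (tr h w) - 1) hk1 hb1 hcut0
  have L2 := dct_L2 hyt (fun n w => cut n (tr h w) - 1) hk1 hb1 hcut0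
  have L3 := dct_L2 hzt (fun n w => dz (cut n) (tr h w)) hk2 hb2 hcutd0
  have L4 := dct_L2 (hcz.const_mul (h : ℂ)) (fun n w => cut n (tr h w) - 1) hk1 hb1 hcut0
  have lim : InDom a Φ (fun w => z (tr h w))
      (fun w => y (tr h w) - h * (ch Φ h w * z (tr h w))) := by
    refine dclo _ _ _ _ hn hzt (hyt.sub (hcz.const_mul _)) ?_ ?_
    · refine L1.congr fun n => ?_
      congr 1
      funext w
      ring
    · have e1 : Tendsto (fun n => eLpNorm (fun w => (cut n (tr h w) - 1) * y (tr h w)) 2 (muS a) +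
          (eLpNorm (fun w => dz (cut n) (tr h w) * z (tr h w)) 2 (muS a) +
          eLpNorm (fun w => (cut n (tr h w) - 1) * (h * (ch Φ h w * z (tr h w)))) 2 (muS a)))
          atTop (𝓝 0) := by
        simpa using L2.add (L3.add L4)
      refine tendsto_of_tendsto_of_tendsto_of_le_of_le tendsto_const_nhds e1 (fun n => zero_le)
        (fun n => ?_)
      have e2 : (fun w => cut n (tr h w) * y (tr h w) - dz (cut n) (tr h w) * z (tr h w) -
          h * (ch Φ h w * cut n (tr h w) * z (tr h w)) -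
          (y (tr h w) - h * (ch Φ h w * z (tr h w)))) =
          (fun w => (cut n (tr h w) - 1) * y (tr h w)) -
          ((fun w => dz (cut n) (tr h w) * z (tr h w)) +
          (fun w => (cut n (tr h w) - 1) * (h * (ch Φ h w * z (tr h w))))) := by
        funext w
        simp only [Pi.sub_apply, Pi.add_apply]
        ring
      simp only [e2]
      have m1 : AEStronglyMeasurable (fun w => (cut n (tr h w) - 1) * y (tr h w)) (muS a) :=
        (hk1 n).aestronglyMeasurable.mul hyt.1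
      have m2 : AEStronglyMeasurable (fun w => dz (cut n) (tr h w) * z (tr h w)) (muS a) :=
        (hk2 n).aestronglyMeasurable.mul hzt.1
      have m3 : AEStronglyMeasurable
          (fun w => (cut n (tr h w) - 1) * (h * (ch Φ h w * z (tr h w)))) (muS a) :=
        (hk1 n).aestronglyMeasurable.mul (hcz.const_mul _).1
      refine (eLpNorm_sub_le m1 (m2.add m3) (by norm_num)).trans ?_
      gcongr
      exact eLpNorm_add_le m2 m3 (by norm_num)
  have fin := dlin _ _ _ _ (1 / h : ℂ) (-(1 / h) : ℂ) lim hD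
  have f1 : (fun w => (1 / h : ℂ) * z (tr h w) + (-(1 / h) : ℂ) * z w) = Dh h z := by
    funext w
    simp only [Dh, tr]
    field_simp
    ring
  have f2 : (fun w => (1 / h : ℂ) * (y (tr h w) - h * (ch Φ h w * z (tr h w))) +
      (-(1 / h) : ℂ) * y w) = fun w => Dh h y w - ch Φ h w * tauh h z w := by
    funext w
    simp only [Dh, tr, tauh]
    field_simp
    ring
  rw [f1, f2] at fin
  exact fin

end Pool.Agent.Helper49.AB.STEP
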